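import Pool.Agent.H48.ER.Targets

/-!
# MP_816b90_co: row HNO, odd holes
-/

set_option autoImplicit false
set_option linter.unusedVariables false

open Pool.Agent.H48.ER

namespace Pool.Agent.H81.ER

/-- adjacency in the cycle with `n + 2` vertices in terms of the values -/
theorem cyc_adj (n : ℕ) (i j : Fin (n + 2)) : (SimpleGraph.cycleGraph (n + 2)).Adj i j ↔
    (i.val + 1 = j.val ∨ j.val + 1 = i.val ∨ (i.val = 0 ∧ j.val = n + 1) ∨
      (j.val = 0 ∧ i.val = n + 1)) ∧ i ≠ j := by
  rw [SimpleGraph.cycleGraph_adj']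
  have h1 : ∀ a b : Fin (n + 2), (a - b).val = 1 ↔ (b.val + 1 = a.val ∨
      (a.val = 0 ∧ b.val = n + 1)) := by
    intro a b
    rw [Fin.val_sub]
    have ha := a.isLt
    have hb := b.isLt
    by_cases h : b.val ≤ a.val
    · have e : n + 2 - b.val + a.val = (a.val - b.val) + (n + 2) := by omega
      rw [e, Nat.add_mod_right, Nat.mod_eq_of_lt (by omega)]
      omega
    · rw [Nat.mod_eq_of_lt (by omega)]
      omega
  rw [h1, h1]
  have hi := i.isLt
  have hj := j.isLt
  constructor
  · intro h
    refine ⟨by omega, fun e => ?_⟩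
    subst e
    omega
  · rintro ⟨h, hne⟩
    omega

theorem pf_HNO : T_HNO := by
  intro m G hG n u v c R hR hn hc hcu hcv hcw
  obtain ⟨g, g0, gn, gi, ga, hRg⟩ := hR
  by_contra hodd
  have hodd' : n % 2 = 1 := by
    rcases Nat.mod_two_eq_zero_or_one n with h | h
    · exact absurd (Nat.even_iff.2 h) hodd
    · exact h
  have hgR : ∀ i, i ≤ n → g i ∈ R := fun i hi => by rw [hRg]; exact ⟨i, hi, rfl⟩
  have hgc : ∀ i, i ≤ n → g i ≠ c := fun i hi e => hc (e ▸ hgR i hi)
  have hcadj : ∀ i, i ≤ n → (G.Adj c (g i) ↔ i = 0 ∨ i = n) := by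
    intro i hi
    constructor
    · intro h
      rcases hcw _ (hgR i hi) h with e | e
      · exact Or.inl (gi i 0 hi (Nat.zero_le _) (e.trans g0.symm))
      · exact Or.inr (gi i n hi le_rfl (e.trans gn.symm))
    · rintro (rfl | rfl)
      · rw [g0]; exact hcu
      · rw [gn]; exact hcv
  refine hG ⟨n + 2, by omega, by omega, ⟨⟨⟨fun i => if i.val ≤ n then g i.val else c, ?_⟩, ?_⟩⟩⟩
  · intro i j e
    have hi := i.isLt
    have hj := j.isLt
    apply Fin.ext
    by_cases h1 : i.val ≤ n <;> by_cases h2 : j.val ≤ n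
    · simp only [h1, h2, if_true] at e
      exact gi _ _ h1 h2 e
    · simp only [h1, h2, if_true, if_false] at e
      exact absurd e (hgc _ h1)
    · simp only [h1, h2, if_true, if_false] at e
      exact absurd e.symm (hgc _ h2)
    · omega
  · intro i j
    have hi := i.isLt
    have hj := j.isLt
    show G.Adj (if i.val ≤ n then g i.val else c) (if j.val ≤ n then g j.val else c) ↔ _
    rw [cyc_adj]
    have hne : i ≠ j ↔ i.val ≠ j.val := by
      rw [Ne, Fin.ext_iff]
    rw [hne]
    by_cases h1 : i.val ≤ n <;> by_cases h2 : j.val ≤ n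
    · simp only [h1, h2, if_true]
      rw [ga _ _ h1 h2]
      omega
    · simp only [h1, h2, if_true, if_false]
      rw [SimpleGraph.adj_comm, hcadj _ h1]
      omega
    · simp only [h1, h2, if_true, if_false]
      rw [hcadj _ h2]
      omega
    · simp only [h1, h2, if_false]
      constructor
      · intro h
        exact absurd rfl h.ne
      · intro h
        omega

end Pool.Agent.H81.ER
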