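import Pool.Agent.H48.ER.Targets

/-!
# MP_816b90_co: row CLC, the piece of `t` if `t` is a corner of the prism of the child `u`
-/

set_option autoImplicit false
set_option linter.unusedVariables false

open Pool.Agent.H48.ER

namespace Pool.Agent.H81.ER

/-- the third index -/
theorem third (i k : Fin 3) (h : i ≠ k) : ∃ j, j ≠ i ∧ j ≠ k ∧ ∀ l, l = i ∨ l = k ∨ l = j := by
  revert i k
  decide

/-- two further indices -/
theorem two (i : Fin 3) : ∃ j k, j ≠ i ∧ k ≠ i ∧ j ≠ k ∧ ∀ l, l = i ∨ l = j ∨ l = k := by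
  revert i
  decide

variable {V : Type}

/-- the neighbourhood of a vertex of degree at most three has exactly one edge -/
theorem oneEdge [Finite V] (hM3 : T_M3) {G : SimpleGraph V} {S : Set V} (hmc : MC G S) {v x y z : V}
    (hv : v ∈ S) (h : ∀ w, G.Adj v w → w = x ∨ w = y ∨ w = z) :
    (∀ p q r, G.Adj v p → G.Adj v q → G.Adj v r → G.Adj p q → G.Adj p r → q = r) ∧
      ∃ p q r, G.Adj v p ∧ G.Adj v q ∧ G.Adj v r ∧ p ≠ q ∧ p ≠ r ∧ q ≠ r := by
  obtain ⟨x', y', z', hN, hxz, hyz, hxy, nxz, nyz, _, _⟩ := hM3 V G S v x y z hmc hv h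
  refine ⟨?_, x', y', z', (hN _).2 (Or.inl rfl), (hN _).2 (Or.inr (Or.inl rfl)),
    (hN _).2 (Or.inr (Or.inr rfl)), hxy.ne, hxz, hyz⟩
  intro p q r hp hq hr hpq hpr
  rcases (hN p).1 hp with rfl | rfl | rfl
  · rcases (hN q).1 hq with rfl | rfl | rfl
    · exact absurd rfl hpq.ne
    · rcases (hN r).1 hr with rfl | rfl | rfl
      · exact absurd rfl hpr.ne
      · rfl
      · exact absurd hpr nxz
    · exact absurd hpq nxz
  · rcases (hN q).1 hq with rfl | rfl | rfl
    · rcases (hN r).1 hr with rfl | rfl | rfl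
      · rfl
      · exact absurd rfl hpr.ne
      · exact absurd hpr nyz
    · exact absurd rfl hpq.ne
    · exact absurd hpq nyz
  · rcases (hN q).1 hq with rfl | rfl | rfl
    · exact absurd hpq.symm nxz
    · exact absurd hpq.symm nyz
    · exact absurd rfl hpq.ne

/-- the set `upper t` -/
theorem upper_eq [Finite V] {H : SimpleGraph V} {f : V → ℕ} (hpeo : PEO H f) {t s : V} {Q : Set V}
    (hQ : Q.ncard = 3) (htQ : t ∈ Q) (hsub : Q ⊆ insert t (upper H f t)) (hs : s ∈ upper H f t)
    (hsQ : s ∉ Q) : upper H f t = insert s (Q \ {t}) := by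
  symm
  apply Set.eq_of_subset_of_ncard_le
  · rintro w (rfl | ⟨hw, hwt⟩)
    · exact hs
    · rcases hsub hw with rfl | h
      · exact absurd rfl hwt
      · exact h
  · have h1 : (insert s (Q \ {t})).ncard = (Q \ {t}).ncard + 1 :=
      Set.ncard_insert_of_notMem (fun h => hsQ h.1) (Set.toFinite _)
    have h2 : (Q \ {t}).ncard + 1 = Q.ncard :=
      Set.ncard_sdiff_singleton_add_one htQ (Set.toFinite _)
    rw [h1, h2, hQ]
    exact hpeo.card t
  · exact Set.toFinite _

/-- another child gives another piece -/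
theorem sib_of_child [Finite V] {G H : SimpleGraph V} {f : V → ℕ} {t u u2 s : V}
    {a b : Fin 3 → V} {n : Fin 3 → ℕ} {P : Fin 3 → Set V} {c : Fin 3 → V} {J : Finset (Fin 3)}
    (hDES : T_DES) (hpeo : PEO H f)
    (hch : ∀ u, par H f u t → IsPc G (dn H f u) (upper H f u)) (hu : par H f u t)
    (hu2 : par H f u2 t) (hne : u2 ≠ u) (hpc : Pc G a b n P c J (dn H f u) (upper H f u))
    (hup : upper H f t = insert s (upper H f u \ {t})) :
    Sib G a b n P c J (dn H f u) (upper H f u) (dn H f u2) (upper H f u2) t := by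
  obtain ⟨_, _, h3, _, _, h6⟩ := hDES V H f hpeo t
  obtain ⟨d1, _⟩ := hDES V H f hpeo u
  obtain ⟨e1, _⟩ := hDES V H f hpeo u2
  obtain ⟨_, ltu, tu, su⟩ := h3 u hu
  obtain ⟨_, ltu2, tu2, su2⟩ := h3 u2 hu2
  refine ⟨hpc, hch u2 hu2, ?_, ?_, ?_, tu, tu2⟩
  · rw [Set.disjoint_left]
    rintro w hw (h | h)
    · exact Set.disjoint_left.1 (h6 u u2 hu hu2 (Ne.symm hne)) h hw
    · have h1 := e1 w hw
      rcases su h with rfl | h2
      · omega
      · have := h2.2
        omega
  · rw [Set.disjoint_left]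
    intro w hw h
    have h1 := d1 w h
    rcases su2 hw with rfl | h2
    · omega
    · have := h2.2
      omega
  · have key : ∀ w, w ∈ upper H f u2 \ upper H f u → w = s := by
      rintro w ⟨hw, hwn⟩
      rcases su2 hw with rfl | h2
      · exact absurd tu hwn
      · rw [hup] at h2
        rcases h2 with rfl | h2
        · rfl
        · exact absurd h2.1 hwn
    intro w hw w' hw'
    rw [key w hw, key w' hw']

theorem pf_CLC (hM1 : T_M1) (hM3 : T_M3) (hDES : T_DES) (hDEG : T_DEG) (hPF : T_PF)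
    (hSB1 : T_SB1) (hSB2 : T_SB2) (hSB3 : T_SB3) (hCLS : T_CLS) : T_CLC := by
  intro V _ G S H f t u a b n P c J i hctx htS hch hu hpc hiJ hti
  have hpeo := hctx.peo
  have hmc := hctx.mc
  obtain ⟨_, _, d3, d4, d5, d6⟩ := hDES V H f hpeo t
  obtain ⟨f1, f2, _, f4, _, f6, f7, f8, _, f10, _, _, _, _⟩ :=
    hPF V G a b n P c J (dn H f u) (upper H f u) hpc
  obtain ⟨_, ltu, tu, su⟩ := d3 u hu
  have hD := hpc.hD
  have hQ := hpc.hQ
  have hpr := hpc.pr.1
  -- the vertex `s`
  have hs : ∃ s ∈ upper H f t, s ∈ kb P (dn H f u) (upper H f u) := by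
    by_contra hcon
    push Not at hcon
    obtain ⟨hJ, _⟩ := hCLS V G S H f t u a b n P c J hctx hch hu hpc hcon
    exact hiJ (hJ ▸ Finset.mem_univ i)
  obtain ⟨s, hs, hskb⟩ := hs
  have hsQ : s ∉ upper H f u := fun h => hskb.2 (Or.inr h)
  have hup := upper_eq hpeo f2 tu su hs hsQ
  have hUver : insert t (upper H f t) ⊆ ver P := by
    rintro w (rfl | hw)
    · exact f8 tu
    · rw [hup] at hw
      rcases hw with rfl | hw
      · exact hskb.1
      · exact f8 hw.1
  have hinS : ∀ v w, G.Adj v w → v ∈ S := fun v w h => (hmc.sup v w h).1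
  -- neighbours of `t`
  have hnt : ∀ w, G.Adj t w → (∃ u', par H f u' t ∧ w ∈ dn H f u') ∨ w = s ∨
      w ∈ upper H f u := by
    intro w hw
    rcases lt_trichotomy (f w) (f t) with h | h | h
    · exact Or.inl (d4 w (hctx.le hw) h)
    · exact absurd (hpeo.inj h) (Ne.symm hw.ne)
    · right
      have : w ∈ upper H f t := ⟨hctx.le hw, h⟩
      rw [hup] at this
      rcases this with rfl | h2
      · exact Or.inl rfl
      · exact Or.inr h2.1
  have hcJ : ∀ j, j ∈ J → ¬ G.Adj t (c j) := by
    intro j hj hadj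
    have h1 : c j ∈ upper H f u := by
      rw [hQ]; exact Or.inl ⟨j, hj, rfl⟩
    obtain ⟨i', j', _, hj', _, e⟩ := f1 t tu (c j) h1 hadj
    have h2 : c j ∈ P j' := by
      rw [e]; exact hpr.a_mem j'
    exact hj' (hpr.rung (hpc.nx j).2 h2 ▸ hj)
  have htP : t ∈ P i := by rw [hti]; exact hpr.a_mem i
  -- other children
  have hother : ∀ u2, par H f u2 t → u2 ≠ u → ∃ (k j : Fin 3) (v' : V), k ≠ i ∧ j ≠ i ∧ j ≠ k ∧
      (∀ l, l = i ∨ l = k ∨ l = j) ∧ J = {k} ∧ dn H f u2 = {v'} ∧
      (∀ w, G.Adj v' w ↔ w = a i ∨ w = a j ∨ w = s) := by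
    intro u2 hu2 hne
    have hsib := sib_of_child hDES hpeo hch hu hu2 hne hpc hup
    obtain ⟨_, _, _, su2⟩ := d3 u2 hu2
    have hQ2 : upper H f u2 ⊆ ver P := su2.trans hUver
    have hdisj : Disjoint (dn H f u2) (ver P) := by
      by_contra hcon
      have hex : ∃ h ∈ dn H f u2, h ∈ ver P := by
        by_contra h2
        push Not at h2
        exact hcon (Set.disjoint_left.2 h2)
      have h1 := hSB1 V G a b n P c J _ _ _ _ t hmc.noh hmc.nop hsib hQ2 hex
      obtain ⟨i1, hi1, e⟩ := hSB2 V G a b n P c J _ _ _ _ t hsib hQ2 h1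
      have h2 : t ∈ P i1 := by rw [e]; exact (hpc.nx i1).2
      exact hiJ (hpr.rung htP h2 ▸ hi1)
    obtain ⟨k, v', hJ, hdn, haj, hN⟩ := hSB3 V G a b n P c J _ _ _ _ t hmc.noh hmc.nop hsib hdisj
    have hik : i ≠ k := fun e => hiJ (by rw [hJ, e]; exact Finset.mem_singleton_self k)
    obtain ⟨j, hji, hjk, hall⟩ := third i k hik
    refine ⟨k, j, v', Ne.symm hik, hji, hjk, hall, hJ, hdn, ?_⟩
    obtain ⟨a', b', n', P', c', J', hpc'⟩ := hch u2 hu2
    obtain ⟨_, g2, _⟩ := hPF V G a' b' n' P' c' J' _ _ hpc'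
    have hkJ : k ∈ J := by rw [hJ]; exact Finset.mem_singleton_self k
    have hai : a i ∈ upper H f u2 := haj i hik
    have haj' : a j ∈ upper H f u2 := haj j hjk
    -- every element of `Q` is `c k`, `a i` or `a j`
    have hQel : ∀ w ∈ upper H f u, w = c k ∨ w = a i ∨ w = a j := by
      intro w hw
      rw [hQ] at hw
      rcases hw with ⟨l, hl, rfl⟩ | ⟨l, hl, rfl⟩
      · rw [hJ] at hl
        rw [Finset.mem_singleton.1 hl]
        exact Or.inl rfl
      · rcases hall l with rfl | rfl | rfl
        · exact Or.inr (Or.inl rfl)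
        · exact absurd hkJ hl
        · exact Or.inr (Or.inr rfl)
    have hsub2 : ∀ w ∈ upper H f u2, w = s ∨ w = c k ∨ w = a i ∨ w = a j := by
      intro w hw
      rcases su2 hw with rfl | h
      · exact Or.inr (Or.inr (Or.inl hti))
      · rw [hup] at h
        rcases h with rfl | h
        · exact Or.inl rfl
        · exact Or.inr (hQel w h.1)
    have hcne : ∀ l, l ≠ k → c k ≠ a l := fun l hl e =>
      hpr.ne_of_mem (Ne.symm hl) (hpc.nx k).2 (hpr.a_mem l) e
    have haij : a i ≠ a j := hpr.ne_of_mem (Ne.symm hji) (hpr.a_mem i) (hpr.a_mem j)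
    -- `s` belongs to `upper u2`
    have hv'S : v' ∈ S := hinS v' _ ((hN _).2 hai)
    have hakD : a k ∈ dn H f u := by rw [hD]; exact ⟨k, hkJ, rfl⟩
    have hv'D : v' ∈ dn H f u2 := by rw [hdn]; rfl
    have hsin : s ∈ upper H f u2 := by
      by_contra hsn
      have hakS : a k ∈ S := hinS _ _ (hpc.nx k).1
      have hne2 : v' ≠ a k := fun e =>
        Set.disjoint_left.1 hsib.dis (e ▸ hv'D) (Or.inl hakD)
      have hnadj : ¬ G.Adj v' (a k) := fun h =>
        Set.disjoint_left.1 hsib.dis' ((hN _).1 h) hakD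
      obtain ⟨w, hw1, hw2⟩ := (hM1 V G S hmc).2 v' hv'S (a k) hakS hne2 hnadj
      rcases hsub2 w ((hN w).1 hw1) with rfl | rfl | rfl | rfl
      · exact hsn ((hN _).1 hw1)
      · exact hw2 (hpc.nx k).1
      · exact hw2 (hpr.a_adj (Ne.symm hik))
      · exact hw2 (hpr.a_adj (Ne.symm hjk))
    have hsai : s ≠ a i := fun e => hsQ (by rw [e, ← hti]; exact tu)
    have hjJ : j ∉ J := by rw [hJ]; exact fun h => hjk (Finset.mem_singleton.1 h)
    have hsaj : s ≠ a j := fun e => hsQ (by rw [e, hQ]; exact Or.inr ⟨j, hjJ, rfl⟩)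
    -- three elements
    have hset : upper H f u2 = {a i, a j, s} := by
      symm
      apply Set.eq_of_subset_of_ncard_le
      · rintro w (rfl | rfl | rfl)
        · exact hai
        · exact haj'
        · exact hsin
      · rw [g2]
        have h1 : ({a j, s} : Set V).ncard = 2 := Set.ncard_pair (Ne.symm hsaj)
        have h2 : a i ∉ ({a j, s} : Set V) := by
          rintro (e | e)
          · exact haij e
          · exact hsai (Set.mem_singleton_iff.1 e).symm
        have h3 : (insert (a i) ({a j, s} : Set V)).ncard = ({a j, s} : Set V).ncard + 1 :=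
          Set.ncard_insert_of_notMem h2 (Set.toFinite _)
        have h4 : ({a i, a j, s} : Set V).ncard = 3 := by
          show (insert (a i) ({a j, s} : Set V)).ncard = 3
          rw [h3, h1]
        exact h4.ge
      · exact Set.toFinite _
    intro w
    rw [hN, hset]
    rfl
  -- the only child is `u`
  have honly : ∀ u2, par H f u2 t → u2 = u := by
    intro u2 hu2
    by_contra hne
    obtain ⟨k, j, v', hki, hji, hjk, hall, hJ, hdn, hN⟩ := hother u2 hu2 hne
    have hkJ : k ∈ J := by rw [hJ]; exact Finset.mem_singleton_self k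
    have hjJ : j ∉ J := by rw [hJ]; exact fun h => hjk (Finset.mem_singleton.1 h)
    have hv'i : G.Adj v' (a i) := (hN _).2 (Or.inl rfl)
    have hv'j : G.Adj v' (a j) := (hN _).2 (Or.inr (Or.inl rfl))
    have hv's : G.Adj v' s := (hN _).2 (Or.inr (Or.inr rfl))
    have hv'S : v' ∈ S := hinS _ _ hv'i
    have hsaj : s ≠ a j := fun e => hsQ (by rw [e, hQ]; exact Or.inr ⟨j, hjJ, rfl⟩)
    have h1 := (oneEdge hM3 hmc hv'S (fun w hw => (hN w).1 hw)).1
    have hij : G.Adj (a i) (a j) := hpr.a_adj (Ne.symm hji)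
    have hnts : ¬ G.Adj t s := by
      intro hadj
      rw [hti] at hadj
      exact hsaj (h1 (a i) (a j) s hv'i hv'j hv's hij hadj).symm
    -- the neighbourhood of `t`
    have hNt : ∀ w, G.Adj t w → w = a k ∨ w = v' ∨ w = a j := by
      intro w hw
      rcases hnt w hw with ⟨u', hu', hwu'⟩ | rfl | hwQ
      · by_cases e1 : u' = u
        · subst e1
          rw [hD] at hwu'
          obtain ⟨l, hl, rfl⟩ := hwu'
          rw [hJ] at hl
          rw [Finset.mem_singleton.1 hl]
          exact Or.inl rfl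
        · by_cases e2 : u' = u2
          · subst e2
            rw [hdn] at hwu'
            exact Or.inr (Or.inl hwu')
          · exfalso
            obtain ⟨k2, j2, v2, hk2i, hj2i, hj2k, _, hJ2, hdn2, hN2⟩ := hother u' hu' e1
            have hkk : k2 = k := by
              have : k2 ∈ J := by rw [hJ2]; exact Finset.mem_singleton_self k2
              rw [hJ] at this
              exact Finset.mem_singleton.1 this
            subst hkk
            have hjj : j2 = j := by
              rcases hall j2 with e | e | e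
              · exact absurd e hj2i
              · exact absurd e hj2k
              · exact e
            subst hjj
            have hv2 : G.Adj v2 (a i) := (hN2 _).2 (Or.inl rfl)
            have hv2S : v2 ∈ S := hinS _ _ hv2
            have hv2D : v2 ∈ dn H f u' := by rw [hdn2]; rfl
            have hv'D : v' ∈ dn H f u2 := by rw [hdn]; rfl
            have hne3 : v' ≠ v2 := fun e =>
              Set.disjoint_left.1 (d6 u' u2 hu' hu2 e2) hv2D (e ▸ hv'D)
            have hsib := sib_of_child hDES hpeo hch hu hu' e1 hpc hup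
            have hna : ¬ G.Adj v' v2 := by
              intro hadj
              have hv2f : f v2 < f t := by
                have e3 := (hDES V H f hpeo u').1 v2 hv2D
                have e4 := (d3 u' hu').2.1
                omega
              rcases (hN v2).1 hadj with e | e | e
              · rw [e, ← hti] at hv2f
                omega
              · have e5 : a j2 ∈ upper H f u := by
                  rw [hQ]; exact Or.inr ⟨j2, hjJ, rfl⟩
                rcases su e5 with e6 | e6
                · rw [e, e6] at hv2f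
                  omega
                · rw [e] at hv2f
                  have := e6.2
                  omega
              · rw [e] at hv2f
                have := hs.2
                omega
            obtain ⟨w', hw1, hw2⟩ := (hM1 V G S hmc).2 v' hv'S v2 hv2S hne3 hna
            exact hw2 ((hN2 w').2 ((hN w').1 hw1))
      · exact absurd hw hnts
      · rw [hQ] at hwQ
        rcases hwQ with ⟨l, hl, rfl⟩ | ⟨l, hl, rfl⟩
        · exact absurd hw (hcJ l hl)
        · rcases hall l with rfl | rfl | rfl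
          · exact absurd hti hw.ne
          · exact absurd hkJ hl
          · exact Or.inr (Or.inr rfl)
    have h2 := (oneEdge hM3 hmc htS hNt).1
    have h3 : G.Adj t (a k) := by rw [hti]; exact hpr.a_adj (Ne.symm hki)
    have h4 : G.Adj t (a j) := by rw [hti]; exact hij
    have h5 : G.Adj t v' := by rw [hti]; exact hv'i.symm
    have h6 : a k = v' := h2 (a j) (a k) v' h4 h3 h5 (hpr.a_adj hjk) hv'j.symm
    have hakD : a k ∈ dn H f u := by rw [hD]; exact ⟨k, hkJ, rfl⟩
    have hv'D : v' ∈ dn H f u2 := by rw [hdn]; rfl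
    exact Set.disjoint_left.1 (d6 u u2 hu hu2 (Ne.symm hne)) hakD (h6 ▸ hv'D)
  -- the neighbourhood of `t`
  obtain ⟨j, k, hji, hki, hjk, hall⟩ := two i
  have hNt : ∀ w, G.Adj t w → w = a j ∨ w = a k ∨ w = s := by
    intro w hw
    have hcor : ∀ l, w = a l → w = a j ∨ w = a k ∨ w = s := by
      intro l hl
      rcases hall l with rfl | rfl | rfl
      · exact absurd (hti.trans hl.symm) hw.ne
      · exact Or.inl hl
      · exact Or.inr (Or.inl hl)
    rcases hnt w hw with ⟨u', hu', hwu'⟩ | rfl | hwQ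
    · rw [honly u' hu', hD] at hwu'
      obtain ⟨l, _, hl⟩ := hwu'
      exact hcor l hl
    · exact Or.inr (Or.inr rfl)
    · rw [hQ] at hwQ
      rcases hwQ with ⟨l, hl, rfl⟩ | ⟨l, hl, e⟩
      · exact absurd hw (hcJ l hl)
      · exact hcor l e
  have hci : c i = s := by
    have h1 : G.Adj t (c i) := by rw [hti]; exact (hpc.nx i).1
    rcases hNt _ h1 with e | e | e
    · exact absurd e (hpr.ne_of_mem (Ne.symm hji) (hpc.nx i).2 (hpr.a_mem j))
    · exact absurd e (hpr.ne_of_mem (Ne.symm hki) (hpc.nx i).2 (hpr.a_mem k))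
    · exact e
  have hdnt : dn H f t = insert t (dn H f u) := by
    ext w
    rw [d5 w]
    constructor
    · rintro (rfl | ⟨u', hu', hw⟩)
      · exact Or.inl rfl
      · rw [honly u' hu'] at hw
        exact Or.inr hw
    · rintro (rfl | hw)
      · exact Or.inl rfl
      · exact Or.inr ⟨u, hu, hw⟩
  refine ⟨a, b, n, P, c, insert i J, hpc.pr, hpc.nx, ⟨i, Finset.mem_insert_self _ _⟩, ?_, ?_, ?_⟩
  · rw [hdnt, hD]
    ext w
    constructor
    · rintro (rfl | ⟨l, hl, rfl⟩)
      · exact ⟨i, Finset.mem_insert_self _ _, hti⟩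
      · exact ⟨l, Finset.mem_insert_of_mem hl, rfl⟩
    · rintro ⟨l, hl, rfl⟩
      rcases Finset.mem_insert.1 hl with rfl | hl
      · exact Or.inl hti.symm
      · exact Or.inr ⟨l, hl, rfl⟩
  · rw [hup, hQ, ← hci]
    ext w
    constructor
    · rintro (rfl | ⟨⟨l, hl, rfl⟩ | ⟨l, hl, rfl⟩, hwt⟩)
      · exact Or.inl ⟨i, Finset.mem_insert_self _ _, rfl⟩
      · exact Or.inl ⟨l, Finset.mem_insert_of_mem hl, rfl⟩
      · refine Or.inr ⟨l, fun h => ?_, rfl⟩
        rcases Finset.mem_insert.1 h with rfl | h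
        · exact hwt hti.symm
        · exact hl h
    · rintro (⟨l, hl, rfl⟩ | ⟨l, hl, rfl⟩)
      · rcases Finset.mem_insert.1 hl with rfl | hl
        · exact Or.inl rfl
        · refine Or.inr ⟨Or.inl ⟨l, hl, rfl⟩, fun e => ?_⟩
          have h1 : c l ∈ P i := by
            rw [Set.mem_singleton_iff.1 e]; exact htP
          exact hiJ (hpr.rung (hpc.nx l).2 h1 ▸ hl)
      · have hl2 : l ∉ J := fun h => hl (Finset.mem_insert_of_mem h)
        have hl3 : l ≠ i := fun e => hl (by rw [e]; exact Finset.mem_insert_self _ _)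
        refine Or.inr ⟨Or.inr ⟨l, hl2, rfl⟩, fun e => ?_⟩
        exact hpr.ne_of_mem hl3 (hpr.a_mem l) htP (Set.mem_singleton_iff.1 e)
  · intro l hl w hw
    rcases Finset.mem_insert.1 hl with rfl | hl
    · rw [← hti] at hw
      rcases hNt w hw with e | e | e
      · exact Or.inr ⟨j, hji, e⟩
      · exact Or.inr ⟨k, hki, e⟩
      · exact Or.inl (e.trans hci.symm)
    · exact hpc.nb l hl w hw

end Pool.Agent.H81.ER
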